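import Pool.Agent.Q166.FS.Main

/-!
# The families `FSPDA n` in terms of context-free and parallel right-linear languages (MP_a569f2_lc)

Theorem and paper proof by helper230; the definition of `FSPDA` and the annotated pushdown automata
`LP` are from helper222 (`Pool/Agent/Q222/FS`, MP_e3bf5d_lc.Hierarchy).
-/

set_option autoImplicit false

namespace Pool.Agent.Results.MP_a569f2_lc.Characterisation

open Q222.FS Pool.Agent.Q166.FS

/-- For every `n`, a language is accepted by an `n`-turn first-move self-regulating pushdown
automaton if and only if it is the homomorphic image of the intersection of a context-free language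
and an `(n + 1)`-parallel right-linear language, and if and only if it is the homomorphic image of
the set of the words `u` of a context-free language with `g(u) = 0^k 1^k ... n^k` for some `k`, for a
letter-to-letter map `g`. -/
theorem result (n : ℕ) (Λ : Type) (L : Set (List Λ)) : List.TFAE [
    L ∈ FSPDA n Λ,
    ∃ (B : Type) (_ : Finite B) (C : Language B) (G : PRLG B (n + 1)) (h : B → List Λ),
      C.IsContextFree ∧ L = {w | ∃ u ∈ C, u ∈ G.lang ∧ u.flatMap h = w},
    ∃ (B : Type) (_ : Finite B) (C : Language B) (g : B → Fin (n + 1)) (h : B → List Λ),
      C.IsContextFree ∧ L = {w | ∃ u ∈ C, (∃ k, u.map g = pattern n k) ∧ u.flatMap h = w}] := by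
  obtain ⟨h1, h2⟩ := char n Λ L
  tfae_have 1 ↔ 2 := h1
  tfae_have 1 ↔ 3 := h2
  tfae_finish

end Pool.Agent.Results.MP_a569f2_lc.Characterisation
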